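import Pool.Agent.TwoDens.Bridge

/-!
Graphs as lists of edges on the natural numbers, with one distinguished edge (the port) that is
not in the list, and the Hajos sum with a block.
-/

open Finset

namespace Pool.Agent.TwoDens.K3V

/-- number of elements of `S` below `n` -/
def sz (S : ℕ → Bool) (n : ℕ) : ℕ := ∑ i ∈ range n, (S i).toNat

/-- number of listed edges inside `S` -/
def cnt (L : List (ℕ × ℕ)) (S : ℕ → Bool) : ℕ := (L.map fun e => (S e.1 && S e.2).toNat).sum

theorem cnt_append (L M : List (ℕ × ℕ)) (S : ℕ → Bool) : cnt (L ++ M) S = cnt L S + cnt M S := by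
  unfold cnt
  rw [List.map_append, List.sum_append]

theorem cnt_single (x y : ℕ) (S : ℕ → Bool) : cnt [(x, y)] S = (S x && S y).toNat := by
  simp [cnt]

theorem sz_add (S : ℕ → Bool) (n k : ℕ) :
    sz S (n + k) = sz S n + ∑ i ∈ range k, (S (n + i)).toNat := by
  unfold sz
  rw [Finset.sum_range_add]

theorem one_le_sz {S : ℕ → Bool} {n x : ℕ} (hx : x < n) (h : S x = true) : 1 ≤ sz S n := by
  unfold sz
  refine le_trans ?_ (Finset.single_le_sum (f := fun i => (S i).toNat)
    (fun i _ => Nat.zero_le _) (mem_range.2 hx))
  simp [h]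

theorem two_le_sz {S : ℕ → Bool} {n x y : ℕ} (hx : x < n) (hy : y < n) (hxy : x ≠ y)
    (h : S x = true) (h' : S y = true) : 2 ≤ sz S n := by
  unfold sz
  have h1 : ∑ i ∈ ({x, y} : Finset ℕ), (S i).toNat = 2 := by
    rw [Finset.sum_pair hxy, h, h']
    rfl
  rw [← h1]
  refine Finset.sum_le_sum_of_subset ?_
  intro i hi
  rw [mem_insert, mem_singleton] at hi
  rw [mem_range]
  rcases hi with rfl | rfl
  · exact hx
  · exact hy

theorem cnt_mono {S S' : ℕ → Bool} (h : ∀ i, S i = true → S' i = true) (L : List (ℕ × ℕ)) :
    cnt L S ≤ cnt L S' := by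
  unfold cnt
  refine List.sum_le_sum ?_
  intro e _
  have h1 := h e.1
  have h2 := h e.2
  cases ha : S e.1 <;> cases hb : S e.2 <;> simp_all

/-- the profile of a graph with a port -/
structure Prof (n a : ℕ) (L : List (ℕ × ℕ)) (x y : ℕ) (P N D : ℤ) : Prop where
  hx : x < n
  hy : y < n
  ne : ∀ e ∈ L, e.1 ≠ e.2
  small : ∀ S, sz S n ≤ 1 → cnt L S = 0
  indep : ∀ S, cnt L S = 0 → (S x && S y) = false → sz S n ≤ a
  w0 : ∀ S, 2 ≤ sz S n → (S x && S y) = false →
    2 * P - N ≤ P * (sz S n : ℤ) - N * (cnt L S : ℤ)
  lam : ∀ S, (S x && S y) = true → 2 * P - 2 * N + D ≤ P * (sz S n : ℤ) - N * ((cnt L S : ℤ) + 1)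

/-- numeric range of the parameters -/
structure Rng (P N : ℤ) : Prop where
  hN : 0 < N
  h1 : 3 * N ≤ 2 * P
  h2 : 5 * P ≤ 8 * N

theorem fi {P N : ℤ} (r : Rng P N) {u c : ℕ} (hu : 2 ≤ u) (h : 2 * c + 4 ≤ 3 * u) :
    2 * P - N ≤ P * (u : ℤ) - N * (c : ℤ) := by
  have h1 : (2 : ℤ) ≤ u := by exact_mod_cast hu
  have h2 : (2 : ℤ) * c + 4 ≤ 3 * u := by exact_mod_cast h
  have h3 := mul_nonneg (sub_nonneg.2 h1) (sub_nonneg.2 r.h1)
  have h4 := mul_nonneg r.hN.le (sub_nonneg.2 h2)
  nlinarith

theorem fii {P N : ℤ} (r : Rng P N) {u e : ℕ}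
    (h : (3 ≤ u ∧ 2 * e + 3 ≤ 3 * u) ∨ (u = 2 ∧ e = 1)) :
    3 * P - 3 * N ≤ P * (u : ℤ) - N * (e : ℤ) := by
  rcases h with ⟨h1, h2⟩ | ⟨rfl, rfl⟩
  · have h1 : (3 : ℤ) ≤ u := by exact_mod_cast h1
    have h2 : (2 : ℤ) * e + 3 ≤ 3 * u := by exact_mod_cast h2
    have h3 := mul_nonneg (sub_nonneg.2 h1) (sub_nonneg.2 r.h1)
    have h4 := mul_nonneg r.hN.le (sub_nonneg.2 h2)
    nlinarith
  · have := r.h2
    have := r.hN
    push_cast
    linarith

theorem fone {P N : ℤ} (r : Rng P N) {u c : ℕ} (hs : u ≤ 1 → c = 0)
    (hW : 2 ≤ u → 2 * P - N ≤ P * (u : ℤ) - N * (c : ℤ)) (hu : 1 ≤ u) :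
    P ≤ P * (u : ℤ) - N * (c : ℤ) := by
  rcases Nat.lt_or_ge u 2 with h | h
  · have h1 : u = 1 := by omega
    rw [hs (by omega), h1]
    simp
  · have h1 := hW h
    have h2 := r.h1
    have h3 := r.hN
    linarith

/-- a block with `k` new vertices `n, ..., n + k - 1`, glued at `y`; `B` are its edges without the
two ports `(x2, y)` and `(x', y')` -/
structure Blk (n k al : ℕ) (B : List (ℕ × ℕ)) (y x2 x' y' : ℕ) (P N G : ℤ) : Prop where
  hx2 : n ≤ x2
  hx2' : x2 < n + k
  hx' : n ≤ x'
  hx'' : x' < n + k
  hy' : n ≤ y'
  hy'' : y' < n + k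
  ne : ∀ e ∈ B, e.1 ≠ e.2
  small : ∀ S : ℕ → Bool, ∑ i ∈ range k, (S (n + i)).toNat + (S y).toNat ≤ 1 → cnt B S = 0
  i1 : ∀ S : ℕ → Bool, (S y && S x2) = false → (S x' && S y') = false →
    2 ≤ ∑ i ∈ range k, (S (n + i)).toNat + (S y).toNat →
    2 * cnt B S + 4 ≤ 3 * (∑ i ∈ range k, (S (n + i)).toNat + (S y).toNat)
  i2 : ∀ S : ℕ → Bool, (S y && S x2) = !(S x' && S y') →
    (3 ≤ ∑ i ∈ range k, (S (n + i)).toNat + (S y).toNat ∧
      2 * (cnt B S + 1) + 3 ≤ 3 * (∑ i ∈ range k, (S (n + i)).toNat + (S y).toNat)) ∨
    (∑ i ∈ range k, (S (n + i)).toNat + (S y).toNat = 2 ∧ cnt B S + 1 = 1)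
  i3 : ∀ S : ℕ → Bool, (S y && S x2) = true → (S x' && S y') = true →
    G ≤ P * ((∑ i ∈ range k, (S (n + i)).toNat + (S y).toNat : ℕ) : ℤ) -
      N * ((cnt B S : ℤ) + 2)
  a1 : ∀ S : ℕ → Bool, cnt B S = 0 → (S x' && S y') = false →
    ∑ i ∈ range k, (S (n + i)).toNat ≤ al
  a2 : ∀ S : ℕ → Bool, cnt B S = 0 → (S x' && S y') = false → S y = true → S x2 = false →
    ∑ i ∈ range k, (S (n + i)).toNat + 1 ≤ al

theorem sum_pos_of {n k x : ℕ} {S : ℕ → Bool} (h1 : n ≤ x) (h2 : x < n + k) (h : S x = true) :
    1 ≤ ∑ i ∈ range k, (S (n + i)).toNat := by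
  refine le_trans ?_ (Finset.single_le_sum (f := fun i => (S (n + i)).toNat)
    (fun i _ => Nat.zero_le _) (mem_range.2 (show x - n < k by omega)))
  have h3 : n + (x - n) = x := by omega
  simp [h3, h]

/-- removing a vertex -/
def del (S : ℕ → Bool) (x : ℕ) : ℕ → Bool := fun i => if i = x then false else S i

theorem sz_del {S : ℕ → Bool} {n x : ℕ} (hx : x < n) (h : S x = true) :
    sz (del S x) n + 1 = sz S n := by
  unfold sz
  rw [← Finset.sum_erase_add _ _ (mem_range.2 hx), ← Finset.sum_erase_add _ _ (mem_range.2 hx)]
  have h1 : ∑ i ∈ (range n).erase x, (del S x i).toNat = ∑ i ∈ (range n).erase x, (S i).toNat := by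
    refine Finset.sum_congr rfl ?_
    intro i hi
    unfold del
    rw [if_neg (Finset.ne_of_mem_erase hi)]
  rw [h1, h]
  simp [del]

theorem step {n a k al : ℕ} {L B : List (ℕ × ℕ)} {x y x2 x' y' : ℕ} {P N D D' G : ℤ}
    (r : Rng P N) (h : Prof n a L x y P N D) (b : Blk n k al B y x2 x' y' P N G)
    (hD : 0 ≤ D) (hD1 : D' ≤ P - N) (hD2 : D' ≤ D + (G + N - P))
    (hD3 : D' ≤ G + N - (2 * P - 2 * N)) :
    Prof (n + k) (a + al) (L ++ B ++ [(x, x2)]) x' y' P N D' := by
  have hx := h.hx
  have hy := h.hy
  have hN := r.hN
  have h32 := r.h1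
  refine ⟨b.hx'', b.hy'', ?_, ?_, ?_, ?_, ?_⟩
  · intro e he
    rw [List.mem_append, List.mem_append, List.mem_singleton] at he
    rcases he with (he | he) | rfl
    · exact h.ne e he
    · exact b.ne e he
    · have := b.hx2
      simp only
      omega
  · intro S hS
    rw [sz_add] at hS
    rw [cnt_append, cnt_append, cnt_single]
    have h1 : cnt L S = 0 := h.small S (by omega)
    have h2 : cnt B S = 0 := by
      refine b.small S ?_
      cases hc : S y
      · simp only [Bool.toNat_false]
        omega
      · have := one_le_sz hy hc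
        simp only [Bool.toNat_true]
        omega
    have h3 : (S x && S x2) = false := by
      by_contra hc
      rw [Bool.not_eq_false, Bool.and_eq_true] at hc
      have h4 := one_le_sz hx hc.1
      have h5 := sum_pos_of b.hx2 b.hx2' hc.2
      omega
    rw [h1, h2, h3]
    rfl
  · intro S hS hR
    rw [cnt_append, cnt_append, cnt_single] at hS
    rw [sz_add]
    have h1 : cnt L S = 0 := by omega
    have h2 : cnt B S = 0 := by omega
    have h3 : (S x && S x2).toNat = 0 := by omega
    cases hyS : S y
    · have h4 := h.indep S h1 (by rw [hyS, Bool.and_false])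
      have h5 := b.a1 S h2 hR
      omega
    · cases hxS : S x
      · have h4 := h.indep S h1 (by rw [hxS, Bool.false_and])
        have h5 := b.a1 S h2 hR
        omega
      · have hx2S : S x2 = false := by
          cases hc : S x2
          · rfl
          · rw [hxS, hc] at h3
            simp at h3
        have h5 := b.a2 S h2 hR hyS hx2S
        have h6 := sz_del hx hxS
        have h7 : cnt L (del S x) = 0 := by
          have h8 : cnt L (del S x) ≤ cnt L S := by
            refine cnt_mono ?_ L
            intro i hi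
            unfold del at hi
            split_ifs at hi
            exact hi
          omega
        have h9 := h.indep (del S x) h7 (by simp [del])
        omega
  · intro S h2 hR
    rw [sz_add] at h2 ⊢
    rw [cnt_append, cnt_append, cnt_single]
    have hW := h.w0 S
    have hsm := h.small S
    have hbs := b.small S
    have hi1 := b.i1 S
    have hi2 := b.i2 S
    rw [hR] at hi1 hi2
    have hlam := h.lam S
    have hx2p : S x2 = true → 1 ≤ ∑ i ∈ range k, (S (n + i)).toNat :=
      fun hc => sum_pos_of b.hx2 b.hx2' hc
    have hxp : S x = true → 1 ≤ sz S n := fun hc => one_le_sz hx hc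
    have hyp : S y = true → 1 ≤ sz S n := fun hc => one_le_sz hy hc
    generalize sz S n = s1 at *
    generalize cnt L S = c1 at *
    generalize cnt B S = c at *
    generalize ∑ i ∈ range k, (S (n + i)).toNat = t at *
    cases hyS : S y
    · rw [hyS] at hW hbs hi1 hi2
      rw [Bool.and_false] at hW
      rw [Bool.false_and] at hi1
      simp only [Bool.toNat_false, Nat.add_zero] at hbs hi1
      rcases Nat.eq_zero_or_pos t with ht | ht
      · have hx2S : S x2 = false := by
          cases hc : S x2
          · rfl
          · have := hx2p hc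
            omega
        have hc0 := hbs (by omega)
        rw [hx2S, Bool.and_false, ht, hc0]
        have := hW (by omega) rfl
        push_cast
        simp only [Bool.toNat_false]
        push_cast
        linarith
      · rcases Nat.eq_zero_or_pos s1 with hs | hs
        · have hxS : S x = false := by
            cases hc : S x
            · rfl
            · have := hxp hc
              omega
          have hc0 := hsm (by omega)
          rw [hxS, Bool.false_and, hs, hc0]
          have := fi r (by omega) (hi1 trivial trivial (by omega))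
          simp only [Bool.toNat_false]
          push_cast
          linarith
        · have h3 := fone r hsm (fun h => hW h rfl) hs
          have h4 := fone r hbs (fun h => fi r h (hi1 trivial trivial h)) ht
          have h5 : ((S x && S x2).toNat : ℤ) ≤ 1 := by
            cases (S x && S x2) <;> simp
          have h6 : N * ((S x && S x2).toNat : ℤ) ≤ N * 1 := mul_le_mul_of_nonneg_left h5 hN.le
          push_cast
          nlinarith
    · rw [hyS] at hW hbs hi1 hi2 hlam
      rw [Bool.and_true] at hW hlam
      rw [Bool.true_and] at hi1 hi2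
      simp only [Bool.toNat_true] at hbs hi1 hi2
      have hs := hyp hyS
      cases hxS : S x
      · rw [hxS] at hW
        have h3 := fone r hsm (fun h => hW h rfl) hs
        simp only [Bool.false_and, Bool.toNat_false]
        cases hx2S : S x2
        · rw [hx2S] at hi1
          rcases Nat.eq_zero_or_pos t with ht | ht
          · have hc0 := hbs (by omega)
            rw [ht, hc0]
            have := hW (by omega) rfl
            push_cast
            linarith
          · have h4 := fi r (by omega) (hi1 rfl trivial (by omega))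
            push_cast at h4 ⊢
            linarith
        · rw [hx2S] at hi2
          have h4 := fii r (hi2 rfl)
          push_cast at h4 ⊢
          linarith
      · rw [hxS] at hlam
        have h3 := hlam rfl
        simp only [Bool.true_and]
        cases hx2S : S x2
        · rw [hx2S] at hi1
          simp only [Bool.toNat_false]
          rcases Nat.eq_zero_or_pos t with ht | ht
          · have hc0 := hbs (by omega)
            rw [ht, hc0]
            push_cast
            linarith
          · have h4 := fi r (by omega) (hi1 rfl trivial (by omega))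
            push_cast at h4 ⊢
            linarith
        · rw [hx2S] at hi2
          have h4 := fii r (hi2 rfl)
          simp only [Bool.toNat_true]
          push_cast at h4 ⊢
          linarith
  · intro S hR
    rw [sz_add]
    rw [cnt_append, cnt_append, cnt_single]
    have hW := h.w0 S
    have hsm := h.small S
    have hbs := b.small S
    have hi2 := b.i2 S
    have hi3 := b.i3 S
    rw [hR] at hi2 hi3
    have hlam := h.lam S
    have hxp : S x = true → 1 ≤ sz S n := fun hc => one_le_sz hx hc
    have hyp : S y = true → 1 ≤ sz S n := fun hc => one_le_sz hy hc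
    generalize sz S n = s1 at *
    generalize cnt L S = c1 at *
    generalize cnt B S = c at *
    generalize ∑ i ∈ range k, (S (n + i)).toNat = t at *
    cases hyS : S y
    · rw [hyS] at hW hi2
      rw [Bool.and_false] at hW
      simp only [Bool.toNat_false, Nat.add_zero] at hi2
      have h4 := fii r (hi2 (by rw [Bool.false_and]; rfl))
      rcases Nat.eq_zero_or_pos s1 with hs | hs
      · have hxS : S x = false := by
          cases hc : S x
          · rfl
          · have := hxp hc
            omega
        have hc0 := hsm (by omega)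
        rw [hxS, Bool.false_and, hs, hc0]
        simp only [Bool.toNat_false]
        push_cast at h4 ⊢
        linarith
      · have h3 := fone r hsm (fun h => hW h rfl) hs
        have h5 : ((S x && S x2).toNat : ℤ) ≤ 1 := by
          cases (S x && S x2) <;> simp
        have h6 : N * ((S x && S x2).toNat : ℤ) ≤ N * 1 := mul_le_mul_of_nonneg_left h5 hN.le
        push_cast at h4 ⊢
        nlinarith
    · rw [hyS] at hW hi2 hlam hi3
      rw [Bool.and_true] at hW hlam
      rw [Bool.true_and] at hi2 hi3
      simp only [Bool.toNat_true] at hi2 hi3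
      have hs := hyp hyS
      cases hxS : S x
      · rw [hxS] at hW
        have h3 := fone r hsm (fun h => hW h rfl) hs
        simp only [Bool.false_and, Bool.toNat_false]
        cases hx2S : S x2
        · rw [hx2S] at hi2
          have h4 := fii r (hi2 rfl)
          push_cast at h4 ⊢
          linarith
        · rw [hx2S] at hi3
          have h4 := hi3 rfl trivial
          push_cast at h4 ⊢
          linarith
      · rw [hxS] at hlam
        have h3 := hlam rfl
        simp only [Bool.true_and]
        cases hx2S : S x2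
        · rw [hx2S] at hi2
          have h4 := fii r (hi2 rfl)
          simp only [Bool.toNat_false]
          push_cast at h4 ⊢
          linarith
        · rw [hx2S] at hi3
          have h4 := hi3 rfl trivial
          simp only [Bool.toNat_true]
          push_cast at h4 ⊢
          linarith

end Pool.Agent.TwoDens.K3V
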