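import Pool.Agent.K3V.Base

/-!
The blocks: a single `K_4`, the split spindle with 9 vertices, the cubic graph with 12
vertices, and the end block.
-/

open Finset

namespace Pool.Agent.TwoDens.K3V

/-- the conditions on a subset of a block with `K` vertices and `fe` edges: `t` new vertices, `c`
edges without the ports, `p` and `q` tell whether the two ports are inside -/
def ok (K fe al t c : ℕ) (y x2 q : Bool) : Bool :=
  (Nat.ble 2 (t + y.toNat) || Nat.beq c 0) &&
  ((y && x2) || q || Nat.ble (t + y.toNat) 1 || Nat.ble (2 * c + 4) (3 * (t + y.toNat))) &&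
  (((y && x2) == q) || (Nat.ble 3 (t + y.toNat) && Nat.ble (2 * c + 5) (3 * (t + y.toNat))) ||
    (Nat.beq (t + y.toNat) 2 && Nat.beq c 0)) &&
  (!(y && x2) || !q || Nat.ble (8 * K + 5 * (c + 2)) (5 * fe + 8 * (t + y.toNat))) &&
  (!(Nat.beq c 0) || q || Nat.ble t al) &&
  (!(Nat.beq c 0) || q || !y || x2 || Nat.ble (t + 1) al)

theorem blk_of {n k al : ℕ} {B : List (ℕ × ℕ)} {y x2 x' y' : ℕ} {P N : ℤ} (r : Rng P N) (fe : ℕ)
    (hx2 : n ≤ x2) (hx2' : x2 < n + k) (hx' : n ≤ x') (hx'' : x' < n + k)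
    (hy' : n ≤ y') (hy'' : y' < n + k) (ne : ∀ e ∈ B, e.1 ≠ e.2)
    (H : ∀ S : ℕ → Bool, ok (k + 1) fe al (∑ i ∈ range k, (S (n + i)).toNat) (cnt B S) (S y)
      (S x2) (S x' && S y') = true) :
    Blk n k al B y x2 x' y' P N (((k : ℤ) + 1) * P - fe * N) := by
  have hb : ∀ m l : ℕ, Nat.ble m l = true ↔ m ≤ l := fun m l => Iff.of_eq Nat.ble_eq
  have he : ∀ m l : ℕ, Nat.beq m l = true ↔ m = l := fun m l => Nat.beq_eq ▸ Iff.rfl
  refine ⟨hx2, hx2', hx', hx'', hy', hy'', ne, ?_, ?_, ?_, ?_, ?_, ?_⟩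
  · intro S h
    have h1 := H S
    unfold ok at h1
    simp only [Bool.and_eq_true, Bool.or_eq_true, hb, he] at h1
    rcases h1.1.1.1.1.1 with h2 | h2
    · omega
    · exact h2
  · intro S hp hq h
    have h1 := H S
    unfold ok at h1
    simp only [Bool.and_eq_true, Bool.or_eq_true, hb, he] at h1
    rcases h1.1.1.1.1.2 with ((h2 | h2) | h2) | h2
    · rw [← Bool.and_eq_true, hp] at h2
      exact absurd h2 (by decide)
    · rw [← Bool.and_eq_true, hq] at h2
      exact absurd h2 (by decide)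
    · omega
    · exact h2
  · intro S hp
    have h1 := H S
    unfold ok at h1
    simp only [Bool.and_eq_true, Bool.or_eq_true, hb, he] at h1
    rcases h1.1.1.1.2 with (h2 | h2) | h2
    · exfalso
      revert h2 hp
      cases (S y && S x2) <;> cases (S x' && S y') <;> decide
    · exact Or.inl ⟨h2.1, by omega⟩
    · exact Or.inr ⟨h2.1, by omega⟩
  · intro S hp hq
    have h1 := H S
    unfold ok at h1
    simp only [Bool.and_eq_true, Bool.or_eq_true, hb, he] at h1
    have h2 : 8 * (k + 1) + 5 * (cnt B S + 2) ≤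
        5 * fe + 8 * (∑ i ∈ range k, (S (n + i)).toNat + (S y).toNat) := by
      rcases h1.1.1.2 with (h2 | h2) | h2
      · exfalso
        rw [hp] at h2
        exact absurd h2 (by decide)
      · exfalso
        rw [hq] at h2
        exact absurd h2 (by decide)
      · exact h2
    have h3 : ∑ i ∈ range k, (S (n + i)).toNat + (S y).toNat ≤ k + 1 := by
      have h4 : ∑ i ∈ range k, (S (n + i)).toNat ≤ ∑ i ∈ range k, 1 :=
        Finset.sum_le_sum (fun i _ => Bool.toNat_le (S (n + i)))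
      rw [Finset.sum_const, card_range, smul_eq_mul, mul_one] at h4
      have h5 := Bool.toNat_le (S y)
      omega
    generalize ∑ i ∈ range k, (S (n + i)).toNat + (S y).toNat = u at h2 h3 ⊢
    have h2 : (8 : ℤ) * (k + 1) + 5 * (cnt B S + 2) ≤ 5 * fe + 8 * u := by exact_mod_cast h2
    have h3 : (u : ℤ) ≤ k + 1 := by exact_mod_cast h3
    have h4 := mul_nonneg (sub_nonneg.2 h3) (sub_nonneg.2 r.h2)
    have h5 := mul_nonneg r.hN.le (sub_nonneg.2 h2)
    nlinarith
  · intro S hc hq
    have h1 := H S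
    unfold ok at h1
    simp only [Bool.and_eq_true, Bool.or_eq_true, hb, he] at h1
    rcases h1.1.2 with (h2 | h2) | h2
    · rw [hc] at h2
      exact absurd h2 (by decide)
    · rw [← Bool.and_eq_true, hq] at h2
      exact absurd h2 (by decide)
    · exact h2
  · intro S hc hq hy hx
    have h1 := H S
    unfold ok at h1
    simp only [Bool.and_eq_true, Bool.or_eq_true, hb, he] at h1
    rcases h1.2 with (((h2 | h2) | h2) | h2) | h2
    · rw [hc] at h2
      exact absurd h2 (by decide)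
    · rw [← Bool.and_eq_true, hq] at h2
      exact absurd h2 (by decide)
    · rw [hy] at h2
      exact absurd h2 (by decide)
    · rw [hx] at h2
      exact absurd h2 (by decide)
    · exact h2

/-- `K_4` on `y, n, n+1, n+2`; ports `(n, y)`, `(n+1, n+2)` -/
def BK (n y : ℕ) : List (ℕ × ℕ) := [(y, n + 1), (y, n + 2), (n, n + 1), (n, n + 2)]

theorem chkK : ∀ a b c y : Bool, ok 4 6 1 (a.toNat + b.toNat + c.toNat)
    ((y && b).toNat + ((y && c).toNat + ((a && b).toNat + ((a && c).toNat + 0)))) y a (b && c) =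
      true := by
  decide

theorem blkK {n y : ℕ} (hy : y < n) {P N : ℤ} (r : Rng P N) :
    Blk n 3 1 (BK n y) y n (n + 1) (n + 2) P N (4 * P - 6 * N) := by
  have h : (4 * P - 6 * N : ℤ) = (((3 : ℕ) : ℤ) + 1) * P - (6 : ℕ) * N := by push_cast; ring
  rw [h]
  refine blk_of r 6 le_rfl (by omega) (by omega) (by omega) (by omega) (by omega) ?_ ?_
  · intro e he
    simp only [BK, List.mem_cons, List.not_mem_nil, or_false] at he
    rcases he with rfl | rfl | rfl | rfl <;> simp only <;> omega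
  · intro S
    rw [Finset.sum_range_succ, Finset.sum_range_succ, Finset.sum_range_succ, Finset.sum_range_zero,
      zero_add]
    exact chkK (S n) (S (n + 1)) (S (n + 2)) (S y)

/-- the spindle with its vertex of degree four split; `y` and `n, ..., n + 7`; ports `(n, y)`,
`(n+5, n+6)` -/
def BX (n y : ℕ) : List (ℕ × ℕ) :=
  [(n + 2, y), (n + 2, n + 5), (n + 2, n + 3), (n + 3, n + 4), (n + 4, n), (n + 4, n + 6),
    (y, n + 1), (n, n + 1), (n + 5, n + 7), (n + 6, n + 7), (n + 1, n + 7)]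

theorem chkX : ∀ a0 a1 a2 a3 a4 a5 a6 a7 y : Bool,
    ok 9 13 3 (a0.toNat + a1.toNat + a2.toNat + a3.toNat + a4.toNat + a5.toNat + a6.toNat +
      a7.toNat)
    ((a2 && y).toNat + ((a2 && a5).toNat + ((a2 && a3).toNat + ((a3 && a4).toNat +
      ((a4 && a0).toNat + ((a4 && a6).toNat + ((y && a1).toNat + ((a0 && a1).toNat +
      ((a5 && a7).toNat + ((a6 && a7).toNat + ((a1 && a7).toNat + 0))))))))))) y a0 (a5 && a6) =
      true := by
  decide +kernel

theorem blkX {n y : ℕ} (hy : y < n) {P N : ℤ} (r : Rng P N) :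
    Blk n 8 3 (BX n y) y n (n + 5) (n + 6) P N (9 * P - 13 * N) := by
  have h : (9 * P - 13 * N : ℤ) = (((8 : ℕ) : ℤ) + 1) * P - (13 : ℕ) * N := by push_cast; ring
  rw [h]
  refine blk_of r 13 le_rfl (by omega) (by omega) (by omega) (by omega) (by omega) ?_ ?_
  · intro e he
    simp only [BX, List.mem_cons, List.not_mem_nil, or_false] at he
    rcases he with rfl | rfl | rfl | rfl | rfl | rfl | rfl | rfl | rfl | rfl | rfl <;>
      simp only <;> omega
  · intro S
    iterate 8 rw [Finset.sum_range_succ]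
    rw [Finset.sum_range_zero, zero_add]
    exact chkX (S n) (S (n + 1)) (S (n + 2)) (S (n + 3)) (S (n + 4)) (S (n + 5)) (S (n + 6))
      (S (n + 7)) (S y)

/-- the cube with two antipodal vertices replaced by triangles; `y` and `n, ..., n + 10`;
ports `(n, y)`, `(n+8, n+9)` -/
def BQ (n y : ℕ) : List (ℕ × ℕ) :=
  [(y, n + 1), (n, n + 1), (n + 2, n + 3), (n + 3, n + 4), (n + 4, n + 5), (n + 5, n + 6),
    (n + 6, n + 7), (n + 7, n + 2), (n + 2, y), (n + 4, n), (n + 6, n + 1), (n + 3, n + 8),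
    (n + 5, n + 9), (n + 7, n + 10), (n + 8, n + 10), (n + 9, n + 10)]

theorem chkQ : ∀ a0 a1 a2 a3 a4 a5 a6 a7 a8 a9 b0 y : Bool,
    ok 12 18 4 (a0.toNat + a1.toNat + a2.toNat + a3.toNat + a4.toNat + a5.toNat + a6.toNat +
      a7.toNat + a8.toNat + a9.toNat + b0.toNat)
    ((y && a1).toNat + ((a0 && a1).toNat + ((a2 && a3).toNat + ((a3 && a4).toNat +
      ((a4 && a5).toNat + ((a5 && a6).toNat + ((a6 && a7).toNat + ((a7 && a2).toNat +
      ((a2 && y).toNat + ((a4 && a0).toNat + ((a6 && a1).toNat + ((a3 && a8).toNat +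
      ((a5 && a9).toNat + ((a7 && b0).toNat + ((a8 && b0).toNat + ((a9 && b0).toNat +
      0)))))))))))))))) y a0 (a8 && a9) =
      true := by
  decide +kernel

theorem blkQ {n y : ℕ} (hy : y < n) {P N : ℤ} (r : Rng P N) :
    Blk n 11 4 (BQ n y) y n (n + 8) (n + 9) P N (12 * P - 18 * N) := by
  have h : (12 * P - 18 * N : ℤ) = (((11 : ℕ) : ℤ) + 1) * P - (18 : ℕ) * N := by push_cast; ring
  rw [h]
  refine blk_of r 18 le_rfl (by omega) (by omega) (by omega) (by omega) (by omega) ?_ ?_
  · intro e he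
    simp only [BQ, List.mem_cons, List.not_mem_nil, or_false] at he
    rcases he with rfl | rfl | rfl | rfl | rfl | rfl | rfl | rfl | rfl | rfl | rfl | rfl | rfl |
      rfl | rfl | rfl <;> simp only <;> omega
  · intro S
    iterate 11 rw [Finset.sum_range_succ]
    rw [Finset.sum_range_zero, zero_add]
    exact chkQ (S n) (S (n + 1)) (S (n + 2)) (S (n + 3)) (S (n + 4)) (S (n + 5)) (S (n + 6))
      (S (n + 7)) (S (n + 8)) (S (n + 9)) (S (n + 10)) (S y)

end Pool.Agent.TwoDens.K3V
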