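import Pool.Agent.K3V.Blocks

/-!
The end block, the words, and the upper bound.
-/

open Finset

namespace Pool.Agent.TwoDens.K3V

/-- the end block on `y, n, ..., n + 4`; port `(n, y)` -/
def BE (n y : ℕ) : List (ℕ × ℕ) :=
  [(n, n + 1), (n, n + 2), (y, n + 1), (y, n + 2), (n + 1, n + 3), (n + 3, n + 4), (n + 4, n + 2)]

/-- the conditions on a subset of the end block -/
def okE (t c : ℕ) (y x2 : Bool) : Bool :=
  (Nat.ble 2 (t + y.toNat) || Nat.beq c 0) &&
  ((y && x2) || Nat.ble (t + y.toNat) 1 || Nat.ble (2 * c + 4) (3 * (t + y.toNat))) &&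
  (!(y && x2) || (Nat.ble 4 (t + y.toNat) && Nat.ble (2 * c + 4) (3 * (t + y.toNat))) ||
    (Nat.ble (t + y.toNat) 4 && Nat.ble (5 * c + 12) (8 * (t + y.toNat)))) &&
  (!(Nat.beq c 0) || Nat.ble t 2) &&
  (!(Nat.beq c 0) || !y || x2 || Nat.ble (t + 1) 2)

theorem chkE : ∀ a0 a1 a2 a3 a4 y : Bool,
    okE (a0.toNat + a1.toNat + a2.toNat + a3.toNat + a4.toNat)
    ((a0 && a1).toNat + ((a0 && a2).toNat + ((y && a1).toNat + ((y && a2).toNat +
      ((a1 && a3).toNat + ((a3 && a4).toNat + ((a4 && a2).toNat + 0))))))) y a0 = true := by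
  decide

/-- the number of new vertices of the end block -/
def tE (S : ℕ → Bool) (n : ℕ) : ℕ := ∑ i ∈ range 5, (S (n + i)).toNat

theorem okE_all (n y : ℕ) (S : ℕ → Bool) : okE (tE S n) (cnt (BE n y) S) (S y) (S n) = true := by
  unfold tE
  iterate 5 rw [Finset.sum_range_succ]
  rw [Finset.sum_range_zero, zero_add]
  exact chkE (S n) (S (n + 1)) (S (n + 2)) (S (n + 3)) (S (n + 4)) (S y)

theorem hble (m l : ℕ) : Nat.ble m l = true ↔ m ≤ l := Iff.of_eq Nat.ble_eq

theorem hbeq (m l : ℕ) : Nat.beq m l = true ↔ m = l := Nat.beq_eq ▸ Iff.rfl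

theorem e_small (n y : ℕ) (S : ℕ → Bool) (h : tE S n + (S y).toNat ≤ 1) :
    cnt (BE n y) S = 0 := by
  have h1 := okE_all n y S
  unfold okE at h1
  simp only [Bool.and_eq_true, Bool.or_eq_true, hble, hbeq] at h1
  rcases h1.1.1.1.1 with h2 | h2
  · omega
  · exact h2

theorem e_i1 (n y : ℕ) (S : ℕ → Bool) (hp : (S y && S n) = false)
    (h : 2 ≤ tE S n + (S y).toNat) :
    2 * cnt (BE n y) S + 4 ≤ 3 * (tE S n + (S y).toNat) := by
  have h1 := okE_all n y S
  unfold okE at h1
  simp only [Bool.and_eq_true, Bool.or_eq_true, hble, hbeq] at h1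
  rcases h1.1.1.1.2 with (h2 | h2) | h2
  · rw [← Bool.and_eq_true, hp] at h2
    exact absurd h2 (by decide)
  · omega
  · exact h2

theorem e_i4 (n y : ℕ) (S : ℕ → Bool) (hp : (S y && S n) = true) {P N : ℤ} (r : Rng P N) :
    4 * P - 5 * N ≤ P * ((tE S n + (S y).toNat : ℕ) : ℤ) - N * ((cnt (BE n y) S : ℤ) + 1) := by
  have h1 := okE_all n y S
  unfold okE at h1
  simp only [Bool.and_eq_true, Bool.or_eq_true, hble, hbeq] at h1
  generalize tE S n + (S y).toNat = u at h1 ⊢
  rcases h1.1.1.2 with (h2 | h2) | h2
  · rw [hp] at h2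
    exact absurd h2 (by decide)
  · have h3 : (4 : ℤ) ≤ u := by exact_mod_cast h2.1
    have h4 : (2 : ℤ) * cnt (BE n y) S + 4 ≤ 3 * u := by exact_mod_cast h2.2
    have h5 := mul_nonneg (sub_nonneg.2 h3) (sub_nonneg.2 r.h1)
    have h6 := mul_nonneg r.hN.le (sub_nonneg.2 h4)
    nlinarith
  · have h3 : (u : ℤ) ≤ 4 := by exact_mod_cast h2.1
    have h4 : (5 : ℤ) * cnt (BE n y) S + 12 ≤ 8 * u := by exact_mod_cast h2.2
    have h5 := mul_nonneg (sub_nonneg.2 h3) (sub_nonneg.2 r.h2)
    have h6 := mul_nonneg r.hN.le (sub_nonneg.2 h4)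
    nlinarith

theorem e_a1 (n y : ℕ) (S : ℕ → Bool) (h : cnt (BE n y) S = 0) : tE S n ≤ 2 := by
  have h1 := okE_all n y S
  unfold okE at h1
  simp only [Bool.and_eq_true, Bool.or_eq_true, hble, hbeq] at h1
  rcases h1.1.2 with h2 | h2
  · rw [h] at h2
    exact absurd h2 (by decide)
  · exact h2

theorem e_a2 (n y : ℕ) (S : ℕ → Bool) (h : cnt (BE n y) S = 0) (hy : S y = true)
    (hx : S n = false) : tE S n + 1 ≤ 2 := by
  have h1 := okE_all n y S
  unfold okE at h1
  simp only [Bool.and_eq_true, Bool.or_eq_true, hble, hbeq] at h1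
  rcases h1.2 with ((h2 | h2) | h2) | h2
  · rw [h] at h2
    exact absurd h2 (by decide)
  · rw [hy] at h2
    exact absurd h2 (by decide)
  · rw [hx] at h2
    exact absurd h2 (by decide)
  · exact h2

theorem e_ne {n y : ℕ} (hy : y < n) : ∀ e ∈ BE n y, e.1 ≠ e.2 := by
  intro e he
  simp only [BE, List.mem_cons, List.not_mem_nil, or_false] at he
  rcases he with rfl | rfl | rfl | rfl | rfl | rfl | rfl <;> simp only <;> omega

/-- the chain starts with an end block -/
theorem start {P N : ℤ} (r : Rng P N) : Prof 6 2 (BE 1 0) 1 0 P N (2 * P - 3 * N) := by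
  have hsz : ∀ S : ℕ → Bool, sz S 6 = tE S 1 + (S 0).toNat := by
    intro S
    have h1 : sz S 6 = sz S 1 + ∑ i ∈ range 5, (S (1 + i)).toNat := sz_add S 1 5
    have h2 : sz S 1 = (S 0).toNat := by
      unfold sz
      rw [Finset.sum_range_one]
    rw [h2] at h1
    unfold tE
    omega
  refine ⟨by norm_num, by norm_num, e_ne (by norm_num), ?_, ?_, ?_, ?_⟩
  · intro S h
    rw [hsz] at h
    exact e_small 1 0 S h
  · intro S h hp
    rw [hsz]
    cases h0 : S 0
    · have := e_a1 1 0 S h
      simpa using this
    · have h1 : S 1 = false := by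
        rw [h0, Bool.and_true] at hp
        exact hp
      have := e_a2 1 0 S h h0 h1
      simpa using this
  · intro S h hp
    rw [hsz] at h ⊢
    exact fi r h (e_i1 1 0 S (by rw [Bool.and_comm]; exact hp) h)
  · intro S hp
    rw [hsz]
    have := e_i4 1 0 S (by rw [Bool.and_comm]; exact hp) r
    linarith

/-- the chain ends with an end block -/
theorem finish {n a : ℕ} {L : List (ℕ × ℕ)} {x y : ℕ} {P N : ℤ} (r : Rng P N)
    (h : Prof n a L x y P N (5 * N - 3 * P)) :
    (∀ e ∈ L ++ BE n y ++ [(x, n)], e.1 ≠ e.2) ∧
    (∀ S, cnt (L ++ BE n y ++ [(x, n)]) S = 0 → sz S (n + 5) ≤ a + 2) ∧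
    (∀ S, 2 ≤ sz S (n + 5) → 2 * P - N ≤ P * (sz S (n + 5) : ℤ) -
      N * (cnt (L ++ BE n y ++ [(x, n)]) S : ℤ)) := by
  have hx := h.hx
  have hy := h.hy
  have hN := r.hN
  have h32 := r.h1
  refine ⟨?_, ?_, ?_⟩
  · intro e he
    rw [List.mem_append, List.mem_append, List.mem_singleton] at he
    rcases he with (he | he) | rfl
    · exact h.ne e he
    · exact e_ne hy e he
    · simp only
      omega
  · intro S hS
    rw [cnt_append, cnt_append, cnt_single] at hS
    have hsz : sz S (n + 5) = sz S n + tE S n := sz_add S n 5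
    rw [hsz]
    have h1 : cnt L S = 0 := by omega
    have h2 : cnt (BE n y) S = 0 := by omega
    have h3 : (S x && S n).toNat = 0 := by omega
    cases hyS : S y
    · have h4 := h.indep S h1 (by rw [hyS, Bool.and_false])
      have h5 := e_a1 n y S h2
      omega
    · cases hxS : S x
      · have h4 := h.indep S h1 (by rw [hxS, Bool.false_and])
        have h5 := e_a1 n y S h2
        omega
      · have hx2S : S n = false := by
          cases hc : S n
          · rfl
          · rw [hxS, hc] at h3
            simp at h3
        have h5 := e_a2 n y S h2 hyS hx2S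
        have h6 := sz_del hx hxS
        have h7 : cnt L (del S x) = 0 := by
          have h8 : cnt L (del S x) ≤ cnt L S := by
            refine cnt_mono ?_ L
            intro i hi
            unfold del at hi
            split_ifs at hi
            exact hi
          omega
        have h9 := h.indep (del S x) h7 (by simp [del])
        omega
  · intro S h2
    have hsz : sz S (n + 5) = sz S n + tE S n := sz_add S n 5
    rw [hsz] at h2 ⊢
    rw [cnt_append, cnt_append, cnt_single]
    have hW := h.w0 S
    have hsm := h.small S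
    have hbs := e_small n y S
    have hi1 := e_i1 n y S
    have hi4 := fun hp => e_i4 n y S hp r
    have hlam := h.lam S
    have hx2p : S n = true → 1 ≤ tE S n :=
      fun hc => sum_pos_of le_rfl (by omega) hc
    have hxp : S x = true → 1 ≤ sz S n := fun hc => one_le_sz hx hc
    have hyp : S y = true → 1 ≤ sz S n := fun hc => one_le_sz hy hc
    generalize sz S n = s1 at *
    generalize cnt L S = c1 at *
    generalize cnt (BE n y) S = c at *
    generalize tE S n = t at *
    cases hyS : S y
    · rw [hyS] at hW hbs hi1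
      rw [Bool.and_false] at hW
      rw [Bool.false_and] at hi1
      simp only [Bool.toNat_false, Nat.add_zero] at hbs hi1
      rcases Nat.eq_zero_or_pos t with ht | ht
      · have hx2S : S n = false := by
          cases hc : S n
          · rfl
          · have := hx2p hc
            omega
        have hc0 := hbs (by omega)
        rw [hx2S, Bool.and_false, ht, hc0]
        have := hW (by omega) rfl
        push_cast
        simp only [Bool.toNat_false]
        push_cast
        linarith
      · rcases Nat.eq_zero_or_pos s1 with hs | hs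
        · have hxS : S x = false := by
            cases hc : S x
            · rfl
            · have := hxp hc
              omega
          have hc0 := hsm (by omega)
          rw [hxS, Bool.false_and, hs, hc0]
          have := fi r (by omega) (hi1 trivial (by omega))
          simp only [Bool.toNat_false]
          push_cast
          linarith
        · have h3 := fone r hsm (fun h => hW h rfl) hs
          have h4 := fone r hbs (fun h => fi r h (hi1 trivial h)) ht
          have h5 : ((S x && S n).toNat : ℤ) ≤ 1 := by
            cases (S x && S n) <;> simp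
          have h6 : N * ((S x && S n).toNat : ℤ) ≤ N * 1 := mul_le_mul_of_nonneg_left h5 hN.le
          push_cast
          nlinarith
    · rw [hyS] at hW hbs hi1 hi4 hlam
      rw [Bool.and_true] at hW hlam
      rw [Bool.true_and] at hi1 hi4
      simp only [Bool.toNat_true] at hbs hi1 hi4
      have hs := hyp hyS
      cases hxS : S x
      · rw [hxS] at hW
        have h3 := fone r hsm (fun h => hW h rfl) hs
        simp only [Bool.false_and, Bool.toNat_false]
        cases hx2S : S n
        · rw [hx2S] at hi1
          rcases Nat.eq_zero_or_pos t with ht | ht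
          · have hc0 := hbs (by omega)
            rw [ht, hc0]
            have := hW (by omega) rfl
            push_cast
            linarith
          · have h4 := fi r (by omega) (hi1 rfl (by omega))
            push_cast at h4 ⊢
            linarith
        · have h4 := hi4 hx2S
          push_cast at h4 ⊢
          linarith
      · rw [hxS] at hlam
        have h3 := hlam rfl
        simp only [Bool.true_and]
        cases hx2S : S n
        · rw [hx2S] at hi1
          simp only [Bool.toNat_false]
          rcases Nat.eq_zero_or_pos t with ht | ht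
          · have hc0 := hbs (by omega)
            rw [ht, hc0]
            have := r.h2
            push_cast
            linarith
          · have h4 := fi r (by omega) (hi1 rfl (by omega))
            have := r.h2
            push_cast at h4 ⊢
            linarith
        · have h4 := hi4 hx2S
          simp only [Bool.toNat_true]
          push_cast at h4 ⊢
          linarith

end Pool.Agent.TwoDens.K3V
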