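import Pool.Agent.K3V.Chain

/-!
The upper bound `M(8 j + 3 ρ, 3 j + ρ + 1) ≤ (12 j + 5 ρ - 9) / (8 j + 3 ρ - 6)`.
-/

open Finset

namespace Pool.Agent.TwoDens.K3V

/-- a graph with a port, `n` vertices and the given profile exists -/
def Ex (n a : ℕ) (P N D : ℤ) : Prop := ∃ L x y, Prof n a L x y P N D

theorem Ex.start {P N : ℤ} (r : Rng P N) : Ex 6 2 P N (2 * P - 3 * N) :=
  ⟨_, _, _, K3V.start r⟩

theorem Ex.stepX {n a : ℕ} {P N D D' : ℤ} (r : Rng P N) (h : Ex n a P N D) (hD : 0 ≤ D)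
    (h1 : D' ≤ P - N) (h2 : D' ≤ D + 4 * (2 * P - 3 * N)) : Ex (n + 8) (a + 3) P N D' := by
  obtain ⟨L, x, y, h⟩ := h
  have h3 := r.h1
  exact ⟨_, _, _, step r h (blkX h.hy r) hD h1 (by linarith) (by linarith)⟩

theorem Ex.stepQ {n a : ℕ} {P N D D' : ℤ} (r : Rng P N) (h : Ex n a P N D) (hD : 0 ≤ D)
    (h1 : D' ≤ P - N) (h2 : D' ≤ D + 4 * (2 * P - 3 * N) - (5 * N - 3 * P))
    (h3 : D' ≤ 5 * (2 * P - 3 * N)) : Ex (n + 11) (a + 4) P N D' := by
  obtain ⟨L, x, y, h⟩ := h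
  exact ⟨_, _, _, step r h (blkQ h.hy r) hD h1 (by linarith) (by linarith)⟩

theorem Ex.stepK {n a : ℕ} {P N D D' : ℤ} (r : Rng P N) (h : Ex n a P N D) (hD : 0 ≤ D)
    (h1 : D' ≤ P - N) (h2 : D' ≤ D - (5 * N - 3 * P))
    (h3 : D' ≤ 2 * P - 3 * N) : Ex (n + 3) (a + 1) P N D' := by
  obtain ⟨L, x, y, h⟩ := h
  exact ⟨_, _, _, step r h (blkK h.hy r) hD h1 (by linarith) (by linarith)⟩

/-- the first `i` units of the word -/
theorem units {j ρ : ℕ} (hj : 2 ≤ j) (hρ : 1 ≤ ρ) (h : 3 * ρ + 2 ≤ 4 * j) {P N : ℤ}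
    (hP : P = 12 * j + 5 * ρ - 9) (hN : N = 8 * j + 3 * ρ - 6) (r : Rng P N) (i : ℕ) :
    ∃ q : ℕ, Ex (6 + 8 * i + 3 * q) (2 + 3 * i + q) P N
      ((ρ : ℤ) * (4 * i + 1) - (4 * j - 3) * q) ∧
      0 ≤ (ρ : ℤ) * (4 * i + 1) - (4 * j - 3) * q ∧
      (ρ : ℤ) * (4 * i + 1) - (4 * j - 3) * q < 4 * j - 3 := by
  have hj' : (2 : ℤ) ≤ j := by exact_mod_cast hj
  have hρ' : (1 : ℤ) ≤ ρ := by exact_mod_cast hρ
  have h' : (3 : ℤ) * ρ + 2 ≤ 4 * j := by exact_mod_cast h
  induction i with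
  | zero =>
    refine ⟨0, ?_, ?_, ?_⟩
    · have h1 := Ex.start r
      have h2 : (2 * P - 3 * N : ℤ) = (ρ : ℤ) * (4 * ((0 : ℕ) : ℤ) + 1) - (4 * j - 3) * ((0 : ℕ) : ℤ) := by
        rw [hP, hN]
        push_cast
        ring
      rw [h2] at h1
      exact h1
    · push_cast
      linarith
    · push_cast
      linarith
  | succ i ih =>
    obtain ⟨q, h1, h2, h3⟩ := ih
    set D : ℤ := (ρ : ℤ) * (4 * i + 1) - (4 * j - 3) * q with hD
    by_cases hX : D + 4 * ρ < 4 * j - 3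
    · have e : (ρ : ℤ) * (4 * ((i + 1 : ℕ) : ℤ) + 1) - (4 * j - 3) * q = D + 4 * ρ := by
        rw [hD]
        push_cast
        ring
      refine ⟨q, ?_, ?_, ?_⟩
      · rw [e]
        have h4 := h1.stepX (D' := D + 4 * ρ) r h2 (by rw [hP, hN]; linarith)
          (by rw [hP, hN]; linarith)
        have e1 : 6 + 8 * (i + 1) + 3 * q = 6 + 8 * i + 3 * q + 8 := by ring
        have e2 : 2 + 3 * (i + 1) + q = 2 + 3 * i + q + 3 := by ring
        rw [e1, e2]
        exact h4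
      · rw [e]
        linarith
      · rw [e]
        exact hX
    · rw [not_lt] at hX
      by_cases hQ : D + 4 * ρ < 2 * (4 * j - 3)
      · have e : (ρ : ℤ) * (4 * ((i + 1 : ℕ) : ℤ) + 1) - (4 * j - 3) * ((q + 1 : ℕ) : ℤ) =
            D + 4 * ρ - (4 * j - 3) := by
          rw [hD]
          push_cast
          ring
        refine ⟨q + 1, ?_, ?_, ?_⟩
        · rw [e]
          have h4 := h1.stepQ (D' := D + 4 * ρ - (4 * j - 3)) r h2 (by rw [hP, hN]; linarith)
            (by rw [hP, hN]; linarith) (by rw [hP, hN]; linarith)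
          have e1 : 6 + 8 * (i + 1) + 3 * (q + 1) = 6 + 8 * i + 3 * q + 11 := by ring
          have e2 : 2 + 3 * (i + 1) + (q + 1) = 2 + 3 * i + q + 4 := by ring
          rw [e1, e2]
          exact h4
        · rw [e]
          linarith
        · rw [e]
          linarith
      · rw [not_lt] at hQ
        have e : (ρ : ℤ) * (4 * ((i + 1 : ℕ) : ℤ) + 1) - (4 * j - 3) * ((q + 2 : ℕ) : ℤ) =
            D + 4 * ρ - 2 * (4 * j - 3) := by
          rw [hD]
          push_cast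
          ring
        refine ⟨q + 2, ?_, ?_, ?_⟩
        · rw [e]
          have h4 := h1.stepQ (D' := D + 4 * ρ - (4 * j - 3)) r h2 (by rw [hP, hN]; linarith)
            (by rw [hP, hN]; linarith) (by rw [hP, hN]; linarith)
          have h5 := h4.stepK (D' := D + 4 * ρ - 2 * (4 * j - 3)) r (by linarith)
            (by rw [hP, hN]; linarith) (by rw [hP, hN]; linarith) (by rw [hP, hN]; linarith)
          have e1 : 6 + 8 * (i + 1) + 3 * (q + 2) = 6 + 8 * i + 3 * q + 11 + 3 := by ring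
          have e2 : 2 + 3 * (i + 1) + (q + 2) = 2 + 3 * i + q + 4 + 1 := by ring
          rw [e1, e2]
          exact h5
        · rw [e]
          linarith
        · rw [e]
          linarith

/-- the whole word: the profile before the last end block -/
theorem word {j ρ : ℕ} (hj : 1 ≤ j) (hρ : 1 ≤ ρ) (h : 3 * ρ + 2 ≤ 4 * j ∨ (j = 1 ∧ ρ = 1))
    {P N : ℤ}
    (hP : P = 12 * j + 5 * ρ - 9) (hN : N = 8 * j + 3 * ρ - 6) (r : Rng P N) :
    Ex (8 * j + 3 * ρ - 5) (3 * j + ρ - 2) P N (5 * N - 3 * P) := by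
  rcases h with h | ⟨rfl, rfl⟩
  · have hj2 : 2 ≤ j := by omega
    have hj' : (2 : ℤ) ≤ j := by exact_mod_cast hj2
    have hρ' : (1 : ℤ) ≤ ρ := by exact_mod_cast hρ
    have h' : (3 : ℤ) * ρ + 2 ≤ 4 * j := by exact_mod_cast h
    obtain ⟨i, rfl⟩ : ∃ i, j = i + 2 := ⟨j - 2, by omega⟩
    obtain ⟨q, h1, h2, h3⟩ := units hj2 hρ h hP hN r i
    set D : ℤ := (ρ : ℤ) * (4 * i + 1) - (4 * ((i + 2 : ℕ) : ℤ) - 3) * q with hD
    have e : D + 4 * ρ = (4 * ((i + 2 : ℕ) : ℤ) - 3) * ((ρ : ℤ) - q) := by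
      rw [hD]
      push_cast
      ring
    have hM : (0 : ℤ) < 4 * ((i + 2 : ℕ) : ℤ) - 3 := by linarith
    have hlo : 0 < (ρ : ℤ) - q := by
      by_contra hc
      rw [not_lt] at hc
      have h4 := mul_nonpos_of_nonneg_of_nonpos hM.le hc
      linarith
    have hhi : (ρ : ℤ) - q < 3 := by
      by_contra hc
      rw [not_lt] at hc
      have h4 := mul_le_mul_of_nonneg_left hc hM.le
      linarith
    have hcase : (ρ : ℤ) - q = 1 ∨ (ρ : ℤ) - q = 2 := by omega
    rcases hcase with hc | hc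
    · have hq : ρ = q + 1 := by omega
      have h4 := h1.stepX (D' := 5 * N - 3 * P) r h2 (by rw [hP, hN]; linarith)
        (by rw [hP, hN]; rw [hc] at e; linarith)
      have e1 : 8 * (i + 2) + 3 * ρ - 5 = 6 + 8 * i + 3 * q + 8 := by omega
      have e2 : 3 * (i + 2) + ρ - 2 = 2 + 3 * i + q + 3 := by omega
      rw [e1, e2]
      exact h4
    · have hq : ρ = q + 2 := by omega
      have h4 := h1.stepQ (D' := 5 * N - 3 * P) r h2 (by rw [hP, hN]; linarith)
        (by rw [hP, hN]; rw [hc] at e; linarith) (by rw [hP, hN]; rw [hc] at e; linarith)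
      have e1 : 8 * (i + 2) + 3 * ρ - 5 = 6 + 8 * i + 3 * q + 11 := by omega
      have e2 : 3 * (i + 2) + ρ - 2 = 2 + 3 * i + q + 4 := by omega
      rw [e1, e2]
      exact h4
  · have h1 := Ex.start r
    have e : (2 * P - 3 * N : ℤ) = 5 * N - 3 * P := by
      rw [hP, hN]
      norm_num
    rw [e] at h1
    exact h1

/-- the graph of a list of edges -/
def gr (n : ℕ) (L : List (ℕ × ℕ)) : SimpleGraph (Fin n) where
  Adj u v := u ≠ v ∧ ((u.val, v.val) ∈ L ∨ (v.val, u.val) ∈ L)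
  symm := ⟨fun _ _ h => ⟨h.1.symm, h.2.symm⟩⟩
  loopless := ⟨fun _ h => h.1 rfl⟩

instance (n : ℕ) (L : List (ℕ × ℕ)) : DecidableRel (gr n L).Adj := fun u v =>
  inferInstanceAs (Decidable (u ≠ v ∧ ((u.val, v.val) ∈ L ∨ (v.val, u.val) ∈ L)))

/-- indicator of a set of vertices -/
def ind {n : ℕ} (Y : Finset (Fin n)) : ℕ → Bool := fun i => decide (∃ h : i < n, ⟨i, h⟩ ∈ Y)

theorem ind_val {n : ℕ} (Y : Finset (Fin n)) (u : Fin n) : ind Y u.val = decide (u ∈ Y) := by
  unfold ind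
  congr 1
  ext
  exact ⟨fun ⟨_, h⟩ => h, fun h => ⟨u.2, h⟩⟩

theorem sz_ind {n : ℕ} (Y : Finset (Fin n)) : sz (ind Y) n = Y.card := by
  unfold sz
  rw [← Fin.sum_univ_eq_sum_range (fun i => (ind Y i).toNat) n]
  have h1 : ∀ u : Fin n, (ind Y u.val).toNat = if u ∈ Y then 1 else 0 := by
    intro u
    rw [ind_val]
    by_cases h : u ∈ Y <;> simp [h]
  rw [Finset.sum_congr rfl (fun u _ => h1 u), Finset.sum_ite_mem, Finset.univ_inter,
    Finset.sum_const, smul_eq_mul, mul_one]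

theorem deg_sum_le {n : ℕ} (L : List (ℕ × ℕ)) (Y : Finset (Fin n)) :
    ∑ v ∈ Y, (Y.filter (fun u => (v.val, u.val) ∈ L ∨ (u.val, v.val) ∈ L)).card ≤
      2 * cnt L (ind Y) := by
  induction L with
  | nil =>
    simp [cnt]
  | cons e L ih =>
    have h1 : cnt (e :: L) (ind Y) = (ind Y e.1 && ind Y e.2).toNat + cnt L (ind Y) := by
      unfold cnt
      rw [List.map_cons, List.sum_cons]
    have h2 : ∀ v ∈ Y, (Y.filter (fun u => (v.val, u.val) ∈ e :: L ∨ (u.val, v.val) ∈ e :: L)).card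
        ≤ (Y.filter (fun u => (v.val, u.val) ∈ L ∨ (u.val, v.val) ∈ L)).card +
          ((if v.val = e.1 then (ind Y e.2).toNat else 0) +
            (if v.val = e.2 then (ind Y e.1).toNat else 0)) := by
      intro v _
      have h3 : Y.filter (fun u => (v.val, u.val) ∈ e :: L ∨ (u.val, v.val) ∈ e :: L) ⊆
          Y.filter (fun u => (v.val, u.val) ∈ L ∨ (u.val, v.val) ∈ L) ∪
          (Y.filter (fun u => v.val = e.1 ∧ u.val = e.2) ∪
            Y.filter (fun u => v.val = e.2 ∧ u.val = e.1)) := by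
        intro u hu
        rw [mem_filter, List.mem_cons, List.mem_cons] at hu
        rw [mem_union, mem_union, mem_filter, mem_filter, mem_filter]
        rcases hu with ⟨hY, (hu | hu) | (hu | hu)⟩
        · exact Or.inr (Or.inl ⟨hY, by rw [← hu], by rw [← hu]⟩)
        · exact Or.inl ⟨hY, Or.inl hu⟩
        · exact Or.inr (Or.inr ⟨hY, by rw [← hu], by rw [← hu]⟩)
        · exact Or.inl ⟨hY, Or.inr hu⟩
      have h4 : ∀ a b : ℕ, (Y.filter (fun u => v.val = a ∧ u.val = b)).card ≤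
          if v.val = a then (ind Y b).toNat else 0 := by
        intro a b
        split_ifs with ha
        · by_cases hb : ∃ h : b < n, (⟨b, h⟩ : Fin n) ∈ Y
          · obtain ⟨hb, hbY⟩ := hb
            have h5 : ind Y b = true := by
              unfold ind
              exact decide_eq_true ⟨hb, hbY⟩
            rw [h5]
            refine le_trans (Finset.card_le_card (t := {⟨b, hb⟩}) ?_) (by simp)
            intro u hu
            rw [mem_filter] at hu
            rw [mem_singleton]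
            exact Fin.ext hu.2.2
          · refine le_trans (le_of_eq (Finset.card_eq_zero.2 ?_)) (Nat.zero_le _)
            rw [Finset.filter_eq_empty_iff]
            intro u hu hc
            exact hb ⟨hc.2 ▸ u.2, by
              have : (⟨b, hc.2 ▸ u.2⟩ : Fin n) = u := Fin.ext hc.2.symm
              rw [this]
              exact hu⟩
        · rw [Finset.card_eq_zero.2]
          rw [Finset.filter_eq_empty_iff]
          intro u _ hc
          exact ha hc.1
      refine le_trans (Finset.card_le_card h3) (le_trans (Finset.card_union_le _ _) ?_)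
      have h5 := Finset.card_union_le (Y.filter (fun u => v.val = e.1 ∧ u.val = e.2))
        (Y.filter (fun u => v.val = e.2 ∧ u.val = e.1))
      have h6 := h4 e.1 e.2
      have h7 := h4 e.2 e.1
      omega
    have h8 : ∀ a : ℕ, ∀ m : ℕ, ∑ v ∈ Y, (if v.val = a then m else 0) ≤ (ind Y a).toNat * m := by
      intro a m
      by_cases ha : ∃ h : a < n, (⟨a, h⟩ : Fin n) ∈ Y
      · obtain ⟨ha, haY⟩ := ha
        have h5 : ind Y a = true := by
          unfold ind
          exact decide_eq_true ⟨ha, haY⟩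
        rw [h5]
        have h6 : ∀ v : Fin n, (if v.val = a then m else 0) = if v = ⟨a, ha⟩ then m else 0 := by
          intro v
          by_cases hv : v.val = a
          · rw [if_pos hv, if_pos (Fin.ext hv)]
          · rw [if_neg hv, if_neg (fun hc => hv (by rw [hc]))]
        rw [Finset.sum_congr rfl (fun v _ => h6 v), Finset.sum_ite_eq' Y ⟨a, ha⟩ (fun _ => m),
          if_pos haY]
        simp
      · rw [Finset.sum_eq_zero]
        · exact Nat.zero_le _
        · intro v hv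
          rw [if_neg]
          intro hc
          exact ha ⟨hc ▸ v.2, by
            have : (⟨a, hc ▸ v.2⟩ : Fin n) = v := Fin.ext hc.symm
            rw [this]
            exact hv⟩
    refine le_trans (Finset.sum_le_sum h2) ?_
    rw [Finset.sum_add_distrib, Finset.sum_add_distrib, h1]
    have h9 := h8 e.1 (ind Y e.2).toNat
    have h10 := h8 e.2 (ind Y e.1).toNat
    have h11 : (ind Y e.1 && ind Y e.2).toNat = (ind Y e.1).toNat * (ind Y e.2).toNat := by
      cases ind Y e.1 <;> cases ind Y e.2 <;> rfl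
    rw [h11]
    have h12 := Nat.mul_comm (ind Y e.1).toNat (ind Y e.2).toNat
    omega

theorem upper (j ρ : ℕ) (hj : 1 ≤ j) (hρ : 1 ≤ ρ) (h : 3 * ρ + 2 ≤ 4 * j ∨ (j = 1 ∧ ρ = 1)) :
    minTwoDensity (8 * j + 3 * ρ) (3 * j + ρ + 1) ≤
      (12 * (j : ℝ) + 5 * ρ - 9) / (8 * j + 3 * ρ - 6) := by
  have hj' : (1 : ℤ) ≤ j := by exact_mod_cast hj
  have hρ' : (1 : ℤ) ≤ ρ := by exact_mod_cast hρ
  have h' : (ρ : ℤ) + 3 ≤ 4 * j := by omega
  obtain ⟨P, hP⟩ : ∃ P : ℤ, P = 12 * j + 5 * ρ - 9 := ⟨_, rfl⟩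
  obtain ⟨N, hN⟩ : ∃ N : ℤ, N = 8 * j + 3 * ρ - 6 := ⟨_, rfl⟩
  have r : Rng P N := ⟨by linarith, by linarith, by linarith⟩
  obtain ⟨L, x, y, hp⟩ := word hj hρ h hP hN r
  obtain ⟨f1, f2, f3⟩ := finish r hp
  set L' := L ++ BE (8 * j + 3 * ρ - 5) y ++ [(x, 8 * j + 3 * ρ - 5)] with hL'
  have en : 8 * j + 3 * ρ - 5 + 5 = 8 * j + 3 * ρ := by omega
  have ea : 3 * j + ρ - 2 + 2 = 3 * j + ρ := by omega
  rw [en] at f2 f3
  rw [ea] at f2
  have hNr : (0 : ℝ) < 8 * (j : ℝ) + 3 * ρ - 6 := by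
    have : (0 : ℝ) < ((N : ℤ) : ℝ) := by exact_mod_cast r.hN
    rw [hN] at this
    push_cast at this
    exact this
  have hPr : (0 : ℝ) ≤ 12 * (j : ℝ) + 5 * ρ - 9 := by
    have : (0 : ℝ) ≤ ((P : ℤ) : ℝ) := by
      have h1 := r.hN
      have h2 := r.h1
      have h3 : 0 ≤ P := by linarith
      exact_mod_cast h3
    rw [hP] at this
    push_cast at this
    exact this
  refine minTwoDensity_le (div_nonneg hPr hNr.le) (gr (8 * j + 3 * ρ) L') (by simp) ?_ ?_
  · intro I hI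
    have h1 : cnt L' (ind I) = 0 := by
      unfold cnt
      rw [List.sum_eq_zero]
      intro z hz
      rw [List.mem_map] at hz
      obtain ⟨e, he, rfl⟩ := hz
      by_contra hc
      have h2 : (ind I e.1 && ind I e.2) = true := by
        cases hh : (ind I e.1 && ind I e.2)
        · rw [hh] at hc
          exact absurd rfl hc
        · rfl
      rw [Bool.and_eq_true] at h2
      unfold ind at h2
      rw [decide_eq_true_eq, decide_eq_true_eq] at h2
      obtain ⟨⟨ha, haI⟩, ⟨hb, hbI⟩⟩ := h2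
      have hne : (⟨e.1, ha⟩ : Fin (8 * j + 3 * ρ)) ≠ ⟨e.2, hb⟩ := by
        intro hc
        exact f1 e he (congrArg Fin.val hc)
      exact hI haI hbI hne ⟨hne, Or.inl he⟩
    have h2 := f2 (ind I) h1
    rw [sz_ind] at h2
    omega
  · intro Y hY
    have h1 := f3 (ind Y) (by rw [sz_ind]; omega)
    rw [sz_ind] at h1
    have h2 : e2 (gr (8 * j + 3 * ρ) L') Y ≤ 2 * cnt L' (ind Y) := by
      refine le_trans ?_ (deg_sum_le L' Y)
      unfold e2
      refine Finset.sum_le_sum ?_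
      intro v _
      refine Finset.card_le_card ?_
      intro u hu
      rw [mem_filter] at hu ⊢
      exact ⟨hu.1, hu.2.2⟩
    have h3 : (e2 (gr (8 * j + 3 * ρ) L') Y : ℝ) ≤ 2 * cnt L' (ind Y) := by exact_mod_cast h2
    have h4 : ((2 * P - N : ℤ) : ℝ) ≤ ((P * (Y.card : ℤ) - N * (cnt L' (ind Y) : ℤ) : ℤ) : ℝ) := by
      exact_mod_cast h1
    rw [hP, hN] at h4
    push_cast at h4
    refine le_trans h3 ?_
    have h5 : (cnt L' (ind Y) : ℝ) ≤ 1 + (12 * (j : ℝ) + 5 * ρ - 9) / (8 * j + 3 * ρ - 6) *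
        ((Y.card : ℝ) - 2) := by
      rw [div_mul_eq_mul_div, ← sub_le_iff_le_add', le_div_iff₀ hNr]
      nlinarith
    nlinarith

theorem upperH (s i : ℕ) (h1 : 2 * s < 3 * i) (h2 : 13 * i + 2 ≤ 10 * s) :
    minTwoDensity (2 * s + i) (s + 1) ≤ (2 * (s : ℝ) + 3 * i - 9) / (2 * (s : ℝ) + i - 6) := by
  obtain ⟨j, hj⟩ : ∃ j, s = i + j := ⟨s - i, by omega⟩
  obtain ⟨ρ, hρ⟩ : ∃ ρ, 3 * i = 2 * s + ρ := ⟨3 * i - 2 * s, by omega⟩
  have h := upper j ρ (by omega) (by omega) (Or.inl (by omega))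
  have e1 : 8 * j + 3 * ρ = 2 * s + i := by omega
  have e2 : 3 * j + ρ + 1 = s + 1 := by omega
  rw [e1, e2] at h
  refine le_trans h (le_of_eq ?_)
  have hs : (s : ℝ) = i + j := by exact_mod_cast hj
  have hi : 3 * (i : ℝ) = 2 * s + ρ := by exact_mod_cast hρ
  have hi' : (i : ℝ) = 2 * j + ρ := by
    rw [hs] at hi
    linarith
  rw [hs, hi']
  congr 1 <;> ring

end Pool.Agent.TwoDens.K3V
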